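import Mathlib

/-!
# The word problem for Artin groups: all or nothing

Coxeter matrices on `n` generators with off-diagonal entries in a finite set `L` (`0` means `∞`). If
the word problem is unsolvable for one Artin group with labels in `L`, then there is `c < 1` such that
it is unsolvable for all but a proportion `c ^ (n ^ 2)` of the Coxeter matrices on `n` generators, for
all large `n`. The proof finds `(n / k ^ 2) ^ 2` sets of `k` generators which have pairwise at most one
generator in common, so that the restrictions of the matrix to them are independent, and uses that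
parabolic subgroups embed (van der Lek). If all labels are even or `∞` this is proved here by
retractions; otherwise it is a hypothesis.
-/

set_option autoImplicit false

namespace Pool.Agent.Results.MP_a1ec0a_al.AllOrNothing

/-- The alternating product `Π(s,t;m) = s t s ⋯` with `m` factors. -/
def alt {G : Type*} [Group G] : ℕ → G → G → G
  | 0, _, _ => 1
  | m + 1, s, t => s * alt m t s

/-- The pairs `s < t` of elements of `S = Fin n`. -/
abbrev Pairs (n : ℕ) := {e : Fin n × Fin n // e.1 < e.2}

/-- A Coxeter matrix on `S = Fin n` with entries in `L` (off the diagonal), given by its entries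
`m_{st}`, `s < t`; the entry `0` stands for `∞`. -/
abbrev Cox (L : Finset ℕ) (n : ℕ) := Pairs n → L

/-- The relations `Π(s,t;m_{st}) = Π(t,s;m_{st})`, `m_{st} ≠ ∞`. -/
def rels {L : Finset ℕ} {n : ℕ} (M : Cox L n) : Set (FreeGroup (Fin n)) :=
  {r | ∃ e : Pairs n, (M e : ℕ) ≠ 0 ∧
    r = alt (M e : ℕ) (FreeGroup.of e.1.1) (FreeGroup.of e.1.2) *
      (alt (M e : ℕ) (FreeGroup.of e.1.2) (FreeGroup.of e.1.1))⁻¹}

/-- The word problem of the Artin group `A_M = PresentedGroup (rels M)` is solvable: the set of the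
words over `S ∪ S⁻¹` which represent the identity is recursive. -/
def Solvable {L : Finset ℕ} {n : ℕ} (M : Cox L n) : Prop :=
  ComputablePred fun w : List (Fin n × Bool) =>
    PresentedGroup.mk (rels M) (FreeGroup.mk w) = 1

/-- The inclusion of pairs given by an increasing map of vertices. -/
def pairMap {k n : ℕ} (f : Fin k ↪o Fin n) (e : Pairs k) : Pairs n :=
  ⟨(f e.1.1, f e.1.2), f.strictMono e.2⟩

/-- Van der Lek's theorem for the label set `L`: for a subset `T` of `S` (the image of `f`) the
natural homomorphism from the Artin group of `T` to that of `S` is injective. -/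
def ParabolicsEmbed (L : Finset ℕ) : Prop :=
  ∀ (k n : ℕ) (f : Fin k ↪o Fin n) (M : Cox L n) (w : FreeGroup (Fin k)),
    PresentedGroup.mk (rels M) (FreeGroup.map f w) = 1 →
      PresentedGroup.mk (rels (M ∘ pairMap f)) w = 1

open Classical in
/-- The proportion of the Coxeter matrices on `n` generators with entries in `L` for which the word
problem is solvable. -/
noncomputable def share (L : Finset ℕ) (n : ℕ) : ℝ :=
  ((Finset.univ.filter fun M : Cox L n => Solvable M).card : ℝ) / Fintype.card (Cox L n)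

/-! ### Alternating products -/

lemma alt_map {G H : Type*} [Group G] [Group H] (φ : G →* H) (m : ℕ) (s t : G) :
    φ (alt m s t) = alt m (φ s) (φ t) := by
  induction m generalizing s t with
  | zero => simp [alt]
  | succ m ih => simp [alt, ih]

lemma alt_two_mul {G : Type*} [Group G] (h : ℕ) (s t : G) : alt (2 * h) s t = (s * t) ^ h := by
  induction h with
  | zero => simp [alt]
  | succ h ih =>
    rw [show 2 * (h + 1) = (2 * h + 1) + 1 by ring]
    simp only [alt]
    rw [ih, pow_succ', mul_assoc]

lemma alt_one {G : Type*} [Group G] {m : ℕ} (hm : Even m) (y : G) : alt m 1 y = alt m y 1 := by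
  obtain ⟨h, rfl⟩ := hm
  rw [← two_mul, alt_two_mul, alt_two_mul, one_mul, mul_one]

/-! ### Parabolic subgroups -/

section
variable {L : Finset ℕ} {k n : ℕ}

lemma rel_holds (M : Cox L n) (e : Pairs n) (he : (M e : ℕ) ≠ 0) :
    alt (M e : ℕ) (PresentedGroup.mk (rels M) (FreeGroup.of e.1.1))
      (PresentedGroup.mk (rels M) (FreeGroup.of e.1.2)) =
    alt (M e : ℕ) (PresentedGroup.mk (rels M) (FreeGroup.of e.1.2))
      (PresentedGroup.mk (rels M) (FreeGroup.of e.1.1)) := by
  have h : PresentedGroup.mk (rels M)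
      (alt (M e : ℕ) (FreeGroup.of e.1.1) (FreeGroup.of e.1.2) *
        (alt (M e : ℕ) (FreeGroup.of e.1.2) (FreeGroup.of e.1.1))⁻¹) = 1 :=
    PresentedGroup.one_of_mem ⟨e, he, rfl⟩
  rw [map_mul, map_inv, mul_inv_eq_one, alt_map, alt_map] at h
  exact h

lemma kills (M : Cox L n) {G : Type*} [Group G] (φ : FreeGroup (Fin n) →* G)
    (h : ∀ e : Pairs n, (M e : ℕ) ≠ 0 →
      alt (M e : ℕ) (φ (FreeGroup.of e.1.1)) (φ (FreeGroup.of e.1.2)) =
        alt (M e : ℕ) (φ (FreeGroup.of e.1.2)) (φ (FreeGroup.of e.1.1)))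
    (w : FreeGroup (Fin n)) (hw : PresentedGroup.mk (rels M) w = 1) : φ w = 1 := by
  have h1 : w ∈ Subgroup.normalClosure (rels M) := PresentedGroup.mk_eq_one_iff.1 hw
  have h2 : Subgroup.normalClosure (rels M) ≤ φ.ker := by
    refine Subgroup.normalClosure_le_normal ?_
    rintro r ⟨e, he, rfl⟩
    rw [SetLike.mem_coe, MonoidHom.mem_ker, map_mul, map_inv, mul_inv_eq_one, alt_map, alt_map]
    exact h e he
  exact h2 h1

lemma map_one_of_one (f : Fin k ↪o Fin n) (M : Cox L n) (w : FreeGroup (Fin k))
    (hw : PresentedGroup.mk (rels (M ∘ pairMap f)) w = 1) :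
    PresentedGroup.mk (rels M) (FreeGroup.map f w) = 1 := by
  refine kills (M ∘ pairMap f) ((PresentedGroup.mk (rels M)).comp (FreeGroup.map f)) ?_ w hw
  intro e he
  simp only [MonoidHom.comp_apply, FreeGroup.map.of]
  exact rel_holds M (pairMap f e) he

lemma pairMap_injective (f : Fin k ↪o Fin n) : Function.Injective (pairMap f) := by
  intro x y hxy
  simp only [pairMap, Subtype.mk.injEq, Prod.mk.injEq, EmbeddingLike.apply_eq_iff_eq] at hxy
  exact Subtype.ext (Prod.ext hxy.1 hxy.2)

/-- If all labels are even (or `∞`), then killing the other generators is a retraction. -/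
lemma embed_of_even (hL : ∀ l ∈ L, Even l) : ParabolicsEmbed L := by
  intro k n f M w hw
  classical
  set g : Fin n → PresentedGroup (rels (M ∘ pairMap f)) :=
    Function.extend f (fun i => PresentedGroup.mk (rels (M ∘ pairMap f)) (FreeGroup.of i))
      (fun _ => 1) with hg
  have hgf : ∀ i, g (f i) = PresentedGroup.mk (rels (M ∘ pairMap f)) (FreeGroup.of i) := fun i =>
    f.injective.extend_apply _ _ i
  have hgo : ∀ j, (¬ ∃ i, f i = j) → g j = 1 := fun j hj => Function.extend_apply' _ _ _ hj
  have h1 : FreeGroup.lift g (FreeGroup.map f w) = 1 := by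
    refine kills M (FreeGroup.lift g) ?_ _ hw
    intro e he
    simp only [FreeGroup.lift_apply_of]
    have hev : Even (M e : ℕ) := hL _ (M e).2
    by_cases ha : ∃ i, f i = e.1.1
    · by_cases hb : ∃ j, f j = e.1.2
      · obtain ⟨i, hi⟩ := ha
        obtain ⟨j, hj⟩ := hb
        have hij : i < j := by
          have := e.2
          rw [← hi, ← hj] at this
          exact f.lt_iff_lt.1 this
        have hee : pairMap f ⟨(i, j), hij⟩ = e := by
          apply Subtype.ext
          simp only [pairMap]
          rw [hi, hj]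
        have h2 := rel_holds (M ∘ pairMap f) ⟨(i, j), hij⟩
        simp only [Function.comp_apply, hee] at h2
        rw [← hi, ← hj, hgf, hgf]
        exact h2 he
      · rw [hgo _ hb]
        exact (alt_one hev _).symm
    · rw [hgo _ ha]
      exact alt_one hev _
  have h3 : (FreeGroup.lift g).comp (FreeGroup.map f) =
      PresentedGroup.mk (rels (M ∘ pairMap f)) := by
    ext i
    simp only [MonoidHom.comp_apply, FreeGroup.map.of, FreeGroup.lift_apply_of]
    exact hgf i
  rw [← h3]
  exact h1

/-- The word problem of a parabolic subgroup. -/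
lemma solvable_sub (hL : ParabolicsEmbed L) (f : Fin k ↪o Fin n) (M : Cox L n)
    (h : Solvable M) : Solvable (M ∘ pairMap f) := by
  refine ComputablePred.computable_of_manyOneReducible ?_ h
  refine ⟨fun w => w.map fun x => (f x.1, x.2), ?_, ?_⟩
  · refine Primrec.to_comp ?_
    refine Primrec.list_map Primrec.id ?_
    exact ((Primrec.dom_finite fun x : Fin k × Bool => ((f x.1, x.2) : Fin n × Bool)).comp
      Primrec.snd)
  · intro w
    have h1 : FreeGroup.mk (w.map fun x => (f x.1, x.2)) = FreeGroup.map f (FreeGroup.mk w) := by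
      rw [FreeGroup.map.mk]
    beta_reduce
    rw [h1]
    exact ⟨map_one_of_one f M _, hL k n f M _⟩

end

/-! ### Counting -/

section
variable {E F Λ : Type} [Fintype E] [Fintype F] [Fintype Λ] [DecidableEq E] [DecidableEq F]

open Classical in
/-- The maps `E → Λ` which avoid the pattern `p` on the first `t` blocks. -/
noncomputable def avoid (φ : ℕ → F → E) (p : F → Λ) (t : ℕ) : Finset (E → Λ) :=
  Finset.univ.filter fun g => ∀ i < t, g ∘ φ i ≠ p

lemma avoid_step (φ : ℕ → F → E) (p : F → Λ) (t : ℕ) (hinj : Function.Injective (φ t))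
    (hdis : ∀ i < t, ∀ x y, φ i x ≠ φ t y) :
    Fintype.card (F → Λ) * (avoid φ p (t + 1)).card ≤
      (Fintype.card (F → Λ) - 1) * (avoid φ p t).card := by
  classical
  set A := avoid φ p t with hA
  set B := A.filter fun g => g ∘ φ t = p with hB
  have h1 : avoid φ p (t + 1) = A \ B := by
    ext g
    simp only [avoid, hA, hB, Finset.mem_filter, Finset.mem_univ, true_and, Finset.mem_sdiff,
      not_and]
    constructor
    · intro h
      exact ⟨fun i hi => h i (by omega), fun _ => h t (by omega)⟩
    · rintro ⟨h2, h3⟩ i hi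
      rcases Nat.lt_succ_iff_lt_or_eq.1 hi with h4 | rfl
      · exact h2 i h4
      · exact h3 h2
  have h2 : B ⊆ A := Finset.filter_subset _ _
  have h3 : A.card ≤ B.card * Fintype.card (F → Λ) := by
    rw [← Finset.card_univ (α := F → Λ), ← Finset.card_product]
    refine Finset.card_le_card_of_injOn
      (fun g => (Function.extend (φ t) p g, g ∘ φ t)) ?_ ?_
    · intro g hg
      simp only [Finset.coe_product, Set.mem_prod, Finset.mem_coe, Finset.mem_univ, and_true]
      have hg' : ∀ i < t, g ∘ φ i ≠ p := by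
        simpa [hA, avoid] using hg
      rw [hB, Finset.mem_filter]
      refine ⟨?_, ?_⟩
      · simp only [hA, avoid, Finset.mem_filter, Finset.mem_univ, true_and]
        intro i hi h4
        refine hg' i hi ?_
        rw [← h4]
        funext x
        simp only [Function.comp_apply]
        rw [Function.extend_apply']
        rintro ⟨y, hy⟩
        exact hdis i hi x y hy.symm
      · funext x
        simp only [Function.comp_apply]
        exact hinj.extend_apply _ _ x
    · intro g hg g' hg' h
      simp only [Prod.mk.injEq] at h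
      funext e
      by_cases he : ∃ x, φ t x = e
      · obtain ⟨x, rfl⟩ := he
        exact congrFun h.2 x
      · have := congrFun h.1 e
        rwa [Function.extend_apply' _ _ _ he, Function.extend_apply' _ _ _ he] at this
  have h4 : (avoid φ p (t + 1)).card + B.card = A.card := by
    rw [h1]
    exact Finset.card_sdiff_add_card_eq_card h2
  have h5 : 1 ≤ Fintype.card (F → Λ) := Fintype.card_pos_iff.2 ⟨p⟩
  obtain ⟨q, hq⟩ := Nat.exists_eq_add_of_le h5
  rw [hq] at h3 ⊢
  rw [Nat.add_sub_cancel_left]
  nlinarith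

lemma avoid_card (φ : ℕ → F → E) (p : F → Λ) (t : ℕ) (hinj : ∀ i < t, Function.Injective (φ i))
    (hdis : ∀ i j, i < j → j < t → ∀ x y, φ i x ≠ φ j y) :
    ((avoid φ p t).card : ℝ) ≤
      (1 - 1 / (Fintype.card (F → Λ) : ℝ)) ^ t * Fintype.card (E → Λ) := by
  classical
  have h5 : 1 ≤ Fintype.card (F → Λ) := Fintype.card_pos_iff.2 ⟨p⟩
  have hQ : (1 : ℝ) ≤ Fintype.card (F → Λ) := by exact_mod_cast h5
  induction t with
  | zero =>
    rw [pow_zero, one_mul]
    exact_mod_cast Finset.card_le_univ _
  | succ t ih =>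
    have ih' := ih (fun i hi => hinj i (by omega)) (fun i j hij hj => hdis i j hij (by omega))
    have h1 := avoid_step φ p t (hinj t (by omega)) (fun i hi => hdis i t hi (by omega))
    have h2 : (Fintype.card (F → Λ) : ℝ) * (avoid φ p (t + 1)).card ≤
        (Fintype.card (F → Λ) - 1) * (avoid φ p t).card := by
      have : ((Fintype.card (F → Λ) * (avoid φ p (t + 1)).card : ℕ) : ℝ) ≤
        (((Fintype.card (F → Λ) - 1) * (avoid φ p t).card : ℕ) : ℝ) := by exact_mod_cast h1
      rw [Nat.cast_mul, Nat.cast_mul, Nat.cast_sub h5, Nat.cast_one] at this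
      exact this
    have h3 : ((avoid φ p (t + 1)).card : ℝ) ≤
        (1 - 1 / (Fintype.card (F → Λ) : ℝ)) * (avoid φ p t).card := by
      have hpos : (0 : ℝ) < Fintype.card (F → Λ) := by linarith
      have e1 : (1 - 1 / (Fintype.card (F → Λ) : ℝ)) * (avoid φ p t).card =
          ((Fintype.card (F → Λ) - 1) * (avoid φ p t).card) / Fintype.card (F → Λ) := by
        field_simp
      rw [e1, le_div_iff₀ hpos]
      linarith
    have h4 : (0 : ℝ) ≤ 1 - 1 / (Fintype.card (F → Λ) : ℝ) := by
      rw [sub_nonneg, div_le_one (by linarith)]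
      exact hQ
    calc ((avoid φ p (t + 1)).card : ℝ) ≤ _ := h3
      _ ≤ (1 - 1 / (Fintype.card (F → Λ) : ℝ)) *
          ((1 - 1 / (Fintype.card (F → Λ) : ℝ)) ^ t * Fintype.card (E → Λ)) :=
        mul_le_mul_of_nonneg_left ih' h4
      _ = _ := by rw [pow_succ]; ring

end

/-! ### Blocks of vertices -/

lemma line_lt {k s i a : ℕ} (hi : i < s * s) (ha : a < k) : i / s * a + i % s < k * s := by
  have hs : 0 < s := Nat.pos_of_ne_zero (by rintro rfl; omega)
  have h1 : i / s < s := Nat.div_lt_of_lt_mul hi
  have h2 : i % s < s := Nat.mod_lt _ hs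
  obtain ⟨k', rfl⟩ : ∃ k', k = k' + 1 := ⟨k - 1, by omega⟩
  have h3 : i / s * a ≤ s * k' := Nat.mul_le_mul h1.le (by omega)
  have h4 : (k' + 1) * s = s * k' + s := by ring
  omega

/-- The `i`-th block of `k` vertices, `i < s ^ 2`: the line `y = (i / s) a + (i % s)`, `a < k`, in the
rectangle of the vertices `a k s + y`, `y < k s`. -/
def blk (k n s i : ℕ) (h : k * (k * s) ≤ n) (hi : i < s * s) : Fin k ↪o Fin n :=
  OrderEmbedding.ofStrictMono
    (fun a => ⟨a * (k * s) + (i / s * a + i % s), by
      have h1 := line_lt hi a.2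
      have h2 : ((a : ℕ) + 1) * (k * s) ≤ k * (k * s) := Nat.mul_le_mul_right _ a.2
      have h3 : ((a : ℕ) + 1) * (k * s) = a * (k * s) + k * s := by ring
      omega⟩)
    (fun a b hab => by
      simp only [Fin.lt_def] at hab ⊢
      have h1 := line_lt hi a.2
      have h2 : ((a : ℕ) + 1) * (k * s) ≤ b * (k * s) := Nat.mul_le_mul_right _ hab
      have h3 : ((a : ℕ) + 1) * (k * s) = a * (k * s) + k * s := by ring
      omega)

lemma blk_val (k n s i : ℕ) (h : k * (k * s) ≤ n) (hi : i < s * s) (a : Fin k) :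
    (blk k n s i h hi a : ℕ) = a * (k * s) + (i / s * a + i % s) := rfl

/-- Two different blocks have at most one vertex in common. -/
lemma blk_inter {k n s i j : ℕ} (h : k * (k * s) ≤ n) (hi : i < s * s) (hj : j < s * s)
    {a b a' b' : Fin k} (hab : a < b) (h1 : blk k n s i h hi a = blk k n s j h hj a')
    (h2 : blk k n s i h hi b = blk k n s j h hj b') : i = j := by
  have key : ∀ a a' : Fin k, blk k n s i h hi a = blk k n s j h hj a' →
      (a : ℕ) = a' ∧ i / s * a + i % s = j / s * a' + j % s := by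
    intro a a' h3
    have h4 := congrArg Fin.val h3
    rw [blk_val, blk_val] at h4
    have h5 := line_lt hi a.2
    have h6 := line_lt hj a'.2
    have h7 : (a : ℕ) = a' := by
      rcases lt_trichotomy (a : ℕ) (a' : ℕ) with h8 | h8 | h8
      · have h9 : ((a : ℕ) + 1) * (k * s) ≤ a' * (k * s) := Nat.mul_le_mul_right _ h8
        have h10 : ((a : ℕ) + 1) * (k * s) = a * (k * s) + k * s := by ring
        omega
      · exact h8
      · have h9 : ((a' : ℕ) + 1) * (k * s) ≤ a * (k * s) := Nat.mul_le_mul_right _ h8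
        have h10 : ((a' : ℕ) + 1) * (k * s) = a' * (k * s) + k * s := by ring
        omega
    refine ⟨h7, ?_⟩
    rw [h7] at h4 ⊢
    omega
  obtain ⟨e1, f1⟩ := key a a' h1
  obtain ⟨e2, f2⟩ := key b b' h2
  rw [← e1] at f1
  rw [← e2] at f2
  have hab' : (a : ℕ) < b := hab
  have g1 : ((i / s : ℕ) : ℤ) * a + ((i % s : ℕ) : ℤ) =
    ((j / s : ℕ) : ℤ) * a + ((j % s : ℕ) : ℤ) := by exact_mod_cast f1
  have g2 : ((i / s : ℕ) : ℤ) * b + ((i % s : ℕ) : ℤ) =
    ((j / s : ℕ) : ℤ) * b + ((j % s : ℕ) : ℤ) := by exact_mod_cast f2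
  have g3 : (((i / s : ℕ) : ℤ) - ((j / s : ℕ) : ℤ)) * (((b : ℕ) : ℤ) - ((a : ℕ) : ℤ)) = 0 := by
    linear_combination g2 - g1
  have g4 : ((b : ℕ) : ℤ) - ((a : ℕ) : ℤ) ≠ 0 := by omega
  have g5 : ((i / s : ℕ) : ℤ) = ((j / s : ℕ) : ℤ) := by
    rcases mul_eq_zero.1 g3 with h | h
    · linarith
    · exact absurd h g4
  have g6 : i / s = j / s := by exact_mod_cast g5
  have g7 : i % s = j % s := by
    rw [g6] at f1
    omega
  have g8 := Nat.div_add_mod i s
  have g9 := Nat.div_add_mod j s
  rw [g6, g7] at g8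
  omega

open Classical in
/-- The inclusion of the pairs of the `i`-th block (with a dummy value outside the range). -/
noncomputable def bpair (k n s : ℕ) (h : k * (k * s) ≤ n) (d : Pairs k → Pairs n) (i : ℕ) :
    Pairs k → Pairs n :=
  if hi : i < s * s then pairMap (blk k n s i h hi) else d

lemma share_le {L : Finset ℕ} (hL : ParabolicsEmbed L) {k : ℕ} (M0 : Cox L k)
    (h0 : ¬ Solvable M0) (n s : ℕ) (hn : k * (k * s) ≤ n) (hs : 0 < s) :
    share L n ≤ (1 - 1 / (Fintype.card (Cox L k) : ℝ)) ^ (s * s) := by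
  classical
  set φ : ℕ → Pairs k → Pairs n :=
    bpair k n s hn (pairMap (blk k n s 0 hn (Nat.mul_pos hs hs))) with hφ
  have hφi : ∀ i (hi : i < s * s), φ i = pairMap (blk k n s i hn hi) := by
    intro i hi
    rw [hφ, bpair, dif_pos hi]
  have hinj : ∀ i < s * s, Function.Injective (φ i) := by
    intro i hi
    rw [hφi i hi]
    exact pairMap_injective _
  have hdis : ∀ i j, i < j → j < s * s → ∀ x y, φ i x ≠ φ j y := by
    intro i j hij hj x y hxy
    rw [hφi i (by omega), hφi j hj] at hxy
    simp only [pairMap, Subtype.mk.injEq, Prod.mk.injEq] at hxy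
    exact absurd (blk_inter hn (by omega) hj x.2 hxy.1 hxy.2) (by omega)
  have hsub : (Finset.univ.filter fun M : Cox L n => Solvable M) ⊆ avoid φ M0 (s * s) := by
    intro M hM
    rw [Finset.mem_filter] at hM
    simp only [avoid, Finset.mem_filter, Finset.mem_univ, true_and]
    intro i hi h1
    refine h0 ?_
    rw [← h1, hφi i hi]
    exact solvable_sub hL _ M hM.2
  have h1 := avoid_card φ M0 (s * s) hinj hdis
  have h2 : ((Finset.univ.filter fun M : Cox L n => Solvable M).card : ℝ) ≤
      (avoid φ M0 (s * s)).card := by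
    exact_mod_cast Finset.card_le_card hsub
  unfold share
  have hQ : (1 : ℝ) ≤ Fintype.card (Cox L k) := by
    exact_mod_cast (Fintype.card_pos_iff.2 ⟨M0⟩ : 0 < Fintype.card (Cox L k))
  have h4 : (0 : ℝ) ≤ 1 - 1 / (Fintype.card (Cox L k) : ℝ) := by
    rw [sub_nonneg, div_le_one (by linarith)]
    exact hQ
  exact div_le_of_le_mul₀ (Nat.cast_nonneg _) (pow_nonneg h4 _) (le_trans h2 h1)

/-- Let `L` be a finite set of labels, `0` (that is `∞`) allowed; if some label in `L` is odd, van der
Lek's theorem is assumed. The word problem is solvable for every Artin group with labels in `L` if and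
only if for each `c < 1` there are infinitely many `n` such that the proportion of the Coxeter matrices
on `n` generators for which it is solvable is at least `c ^ (n ^ 2)`. -/
theorem result (L : Finset ℕ) (hne : L.Nonempty) (hL : (∃ l ∈ L, Odd l) → ParabolicsEmbed L) :
    (∀ (n : ℕ) (M : Cox L n), Solvable M) ↔
      ∀ c : ℝ, 0 < c → c < 1 → ∀ N : ℕ, ∃ n ≥ N, c ^ (n ^ 2) ≤ share L n := by
  classical
  have hP : ParabolicsEmbed L := by
    by_cases h : ∃ l ∈ L, Odd l
    · exact hL h
    · refine embed_of_even fun l hl => ?_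
      by_contra h2
      exact h ⟨l, hl, Nat.not_even_iff_odd.1 h2⟩
  obtain ⟨l0, hl0⟩ := hne
  constructor
  · intro h c hc hc1 N
    refine ⟨N, le_rfl, ?_⟩
    have h1 : share L N = 1 := by
      unfold share
      have h2 : (Finset.univ.filter fun M : Cox L N => Solvable M) = Finset.univ :=
        Finset.filter_true_of_mem fun M _ => h N M
      rw [h2, Finset.card_univ]
      have h3 : 0 < Fintype.card (Cox L N) := Fintype.card_pos_iff.2 ⟨fun _ => ⟨l0, hl0⟩⟩
      exact div_self (by exact_mod_cast h3.ne')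
    rw [h1]
    exact pow_le_one₀ hc.le hc1.le
  · intro h
    by_contra hcon
    push Not at hcon
    obtain ⟨k', M', hM'⟩ := hcon
    -- a matrix with at least one vertex
    obtain ⟨k, hk, M0, h0⟩ : ∃ k : ℕ, 0 < k ∧ ∃ M0 : Cox L k, ¬ Solvable M0 := by
      refine ⟨k' + 1, Nat.succ_pos _, fun e => if h : ∃ e', pairMap Fin.castSuccOrderEmb e' = e then
        M' h.choose else ⟨l0, hl0⟩, fun hs => hM' ?_⟩
      have h1 := solvable_sub hP Fin.castSuccOrderEmb _ hs
      have h2 : ((fun e => if h : ∃ e', pairMap Fin.castSuccOrderEmb e' = e then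
        M' h.choose else (⟨l0, hl0⟩ : L)) : Cox L (k' + 1)) ∘ pairMap Fin.castSuccOrderEmb = M' := by
        funext e
        have hex : ∃ e', pairMap Fin.castSuccOrderEmb e' =
          pairMap (n := k' + 1) Fin.castSuccOrderEmb e := ⟨e, rfl⟩
        simp only [Function.comp_apply]
        rw [dif_pos hex]
        have h3 := hex.choose_spec
        have h4 : hex.choose = e := pairMap_injective _ h3
        rw [h4]
      rw [h2] at h1
      exact h1
    have hQ : (1 : ℝ) ≤ Fintype.card (Cox L k) := by
      exact_mod_cast (Fintype.card_pos_iff.2 ⟨M0⟩ : 0 < Fintype.card (Cox L k))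
    set Q : ℝ := (Fintype.card (Cox L k) : ℝ) with hQdef
    set x : ℝ := 1 / (2 * Q * (4 * k ^ 4)) with hx
    have hk1 : (1 : ℝ) ≤ k := by exact_mod_cast hk
    have hk4 : (1 : ℝ) ≤ (k : ℝ) ^ 4 := one_le_pow₀ hk1
    have hx0 : 0 < x := by positivity
    have hxle : x ≤ 1 / 8 := by
      rw [hx]
      apply one_div_le_one_div_of_le (by norm_num)
      nlinarith
    obtain ⟨n, hn, hc⟩ := h (1 - x) (by linarith) (by linarith) (k * k)
    -- the number `s` of slopes
    have hkk : 0 < k * k := Nat.mul_pos hk hk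
    set s := n / (k * k) with hs
    have hs0 : 0 < s := Nat.div_pos hn hkk
    have hsk : k * (k * s) ≤ n := by
      have := Nat.div_mul_le_self n (k * k)
      calc k * (k * s) = n / (k * k) * (k * k) := by rw [hs]; ring
        _ ≤ n := this
    have hns : n ≤ 2 * (k * k) * s := by
      have h1 : n < s * (k * k) + k * k := Nat.lt_div_mul_add (a := n) hkk
      nlinarith
    have hnt : n ^ 2 ≤ (4 * k ^ 4) * (s * s) := by
      calc n ^ 2 ≤ (2 * (k * k) * s) ^ 2 := Nat.pow_le_pow_left hns 2
        _ = _ := by ring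
    have h1 := share_le hP M0 h0 n s hsk hs0
    have h2 : (1 - x) ^ ((4 * k ^ 4) * (s * s)) ≤ (1 - x) ^ (n ^ 2) :=
      pow_le_pow_of_le_one (by linarith) (by linarith) hnt
    have h3 : 1 - 1 / (2 * Q) ≤ (1 - x) ^ (4 * k ^ 4) := by
      have hb := one_add_mul_le_pow (a := -x) (by linarith) (4 * k ^ 4)
      have e1 : (1 : ℝ) + ((4 * k ^ 4 : ℕ) : ℝ) * -x = 1 - 1 / (2 * Q) := by
        rw [hx]
        push_cast
        field_simp
        ring
      rw [e1] at hb
      calc 1 - 1 / (2 * Q) ≤ (1 + -x) ^ (4 * k ^ 4) := hb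
        _ = (1 - x) ^ (4 * k ^ 4) := by rw [← sub_eq_add_neg]
    have h4 : (1 - 1 / Q) < 1 - 1 / (2 * Q) := by
      have hQ0 : 0 < Q := by linarith
      have : 1 / (2 * Q) < 1 / Q := by
        apply one_div_lt_one_div_of_lt hQ0
        linarith
      linarith
    have h5 : 0 ≤ 1 - 1 / Q := by
      rw [sub_nonneg, div_le_one (by linarith)]
      exact hQ
    have h6 : (1 - 1 / Q) ^ (s * s) < (1 - 1 / (2 * Q)) ^ (s * s) :=
      pow_lt_pow_left₀ h4 h5 (Nat.mul_pos hs0 hs0).ne'
    have h7 : (1 - 1 / (2 * Q)) ^ (s * s) ≤ ((1 - x) ^ (4 * k ^ 4)) ^ (s * s) :=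
      pow_le_pow_left₀ (by linarith) h3 _
    rw [← pow_mul] at h7
    linarith

end Pool.Agent.Results.MP_a1ec0a_al.AllOrNothing
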